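import Pool.Agent.W307.SE.Stm
import Pool.Agent.W605.RT.PAR4

/-!
# Project SE, part PARX4: parametrisation with the roots
-/

set_option autoImplicit false

namespace Pool.Agent.W924.SE

open Finset Pool.Agent.W262.RK Pool.Agent.W307.RT Pool.Agent.W605.RT

theorem parx4 : Pool.Agent.W307.SE.PARX 4 12 Pool.Agent.W307.RT.M4 Pool.Agent.W307.RT.N4 := by
  refine ⟨54, FF, fun H => ⟨?_, ?_⟩⟩
  · intro c hc c' hc' hcc
    rw [Finset.mem_coe] at hc hc'
    simp only [Cv, Finset.mem_filter] at hc hc'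
    obtain ⟨-, hD, -, -, hmin, hT⟩ := hc
    obtain ⟨-, hD', -, -, hmin', hT'⟩ := hc'
    have r := FF_rel (core hD hT)
    have r' := FF_rel (core hD' hT')
    change Rel c (FF c) at r
    change Rel c' (FF c') at r'
    rw [← hcc] at r'
    exact rel_unique r r' hmin hmin'
  · intro c hc
    simp only [Cv, Finset.mem_filter] at hc
    obtain ⟨-, hD, hH, -, hmin, hT⟩ := hc
    have r := FF_rel (core hD hT)
    change Rel c (FF c) at r
    obtain ⟨hb1, hb2⟩ := rel_bound (A := c.1) (B := c.2) r hH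
    set ab := FF c with hab
    clear_value ab
    obtain ⟨A, B⟩ := c
    obtain ⟨a, b⟩ := ab
    obtain ⟨g, e, hg, hco, ha0, hb0, hne, he, hA, hB⟩ := r
    change a ≠ 0 at ha0
    change b ≠ 0 at hb0
    change a ^ 2 ≠ b ^ 2 at hne
    change 3 * e = g ^ 2 * (a ^ 2 + b ^ 2) at he
    change 3 * A = -(g ^ 4 * (a ^ 4 - a ^ 2 * b ^ 2 + b ^ 4)) at hA
    change 27 * B = g ^ 6 * ((a ^ 2 + b ^ 2) * (2 * a ^ 2 - b ^ 2) * (a ^ 2 - 2 * b ^ 2)) at hB
    refine ⟨hco, ?_, ?_, ?_, hb1, hb2, e, e - g ^ 2 * a ^ 2, e - g ^ 2 * b ^ 2, g, ?_, ?_, ?_, ?_⟩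
    · exact pow_ne_zero 2 ha0
    · exact pow_ne_zero 2 hb0
    · exact hne
    · exact_mod_cast hg.ne'
    · intro x
      change x ^ 3 + A * x + B = (x - e) * (x - (e - g ^ 2 * a ^ 2)) * (x - (e - g ^ 2 * b ^ 2))
      have h1 : 27 * (x ^ 3 + A * x + B) =
          27 * ((x - e) * (x - (e - g ^ 2 * a ^ 2)) * (x - (e - g ^ 2 * b ^ 2))) := by
        have h2 : 27 * ((x - e) * (x - (e - g ^ 2 * a ^ 2)) * (x - (e - g ^ 2 * b ^ 2))) =
            (3 * x - 3 * e) * (3 * x - (3 * e - 3 * (g ^ 2 * a ^ 2))) *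
              (3 * x - (3 * e - 3 * (g ^ 2 * b ^ 2))) := by ring
        have h3 : 27 * (x ^ 3 + A * x + B) = 27 * x ^ 3 + 9 * x * (3 * A) + 27 * B := by ring
        rw [h2, h3, he, hA, hB]
        ring
      linarith
    · change ((e - g ^ 2 * a ^ 2 - e : ℤ) : ℚ) = -((M4 a b : ℤ) : ℚ) * (g : ℚ) ^ 2
      unfold M4
      push_cast
      ring
    · change ((e - g ^ 2 * b ^ 2 - e : ℤ) : ℚ) = -((N4 a b : ℤ) : ℚ) * (g : ℚ) ^ 2
      unfold N4
      push_cast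
      ring

end Pool.Agent.W924.SE
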